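import Mathlib
import Pool.Agent.Helper60.GP.Defs
import Pool.Agent.Helper53.OM.Ana

/-!
# Block Minus of the product inequality for the circle error
-/

open Filter MeasureTheory Set
open scoped Real

namespace Pool.Agent.Helper60.GP

open Pool.Agent.Helper22.GC Pool.Agent.Helper53.OM Pool.Agent.Helper22.RZ

noncomputable section

lemma minus_near {T : Finset ℕ} {Q x0 ε : ℝ} (hx0 : 0 ≤ x0) {K : ℕ}
    (hT : ∀ q ∈ T, ∃ a : ℤ, |√(q : ℝ) * x0 - a| ≤ ε)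
    (hK : ∃ x ∈ idx T, |lin T x - √(K : ℝ)| < 1 / Q) :
    ∃ a : ℤ, |√(K : ℝ) * x0 - a| ≤ x0 / Q + T.card * ε := by
  classical
  obtain ⟨x, hx, hxK⟩ := hK
  choose! a ha using hT
  refine ⟨∑ q : T, x q * a q, ?_⟩
  have h1 : √(K : ℝ) * x0 - ((∑ q : T, x q * a q : ℤ) : ℝ) =
      (√(K : ℝ) - lin T x) * x0 + ∑ q : T, (x q : ℝ) * (√((q : ℕ) : ℝ) * x0 - a q) := by
    unfold lin
    push_cast
    rw [sub_mul, Finset.sum_mul]
    have : ∑ q : T, (x q : ℝ) * (√((q : ℕ) : ℝ) * x0 - a q) =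
        ∑ q : T, (x q : ℝ) * √((q : ℕ) : ℝ) * x0 - ∑ q : T, (x q : ℝ) * a q := by
      rw [← Finset.sum_sub_distrib]
      exact Finset.sum_congr rfl fun q _ => by ring
    rw [this]
    ring
  rw [h1]
  refine (abs_add_le _ _).trans (add_le_add ?_ ?_)
  · rw [abs_mul, abs_of_nonneg hx0, abs_sub_comm]
    calc |lin T x - √(K : ℝ)| * x0 ≤ 1 / Q * x0 := mul_le_mul_of_nonneg_right hxK.le hx0
      _ = x0 / Q := by ring
  · refine (Finset.abs_sum_le_sum_abs _ _).trans ?_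
    have h2 : ∀ q : T, |(x q : ℝ) * (√((q : ℕ) : ℝ) * x0 - a q)| ≤ ε := by
      intro q
      rw [abs_mul]
      have h3 : |(x q : ℝ)| ≤ 1 := by
        unfold idx at hx
        rw [Fintype.mem_piFinset] at hx
        have := hx q
        simp only [Finset.mem_insert, Finset.mem_singleton] at this
        rcases this with h | h | h <;> rw [h] <;> simp
      calc |(x q : ℝ)| * |√((q : ℕ) : ℝ) * x0 - a q| ≤ 1 * ε :=
            mul_le_mul h3 (ha q q.2) (abs_nonneg _) zero_le_one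
        _ = ε := one_mul _
    calc ∑ q : T, |(x q : ℝ) * (√((q : ℕ) : ℝ) * x0 - a q)| ≤ ∑ _q : T, ε :=
          Finset.sum_le_sum fun q _ => h2 q
      _ = T.card * ε := by
          rw [Finset.sum_const, nsmul_eq_mul, Finset.card_univ, Fintype.card_coe]

/-- Block Minus -/
theorem minus_core : ∃ c C : ℝ, 0 < c ∧ 0 < C ∧ ∀ (N L τ : ℕ) (M T : Finset ℕ) (X Q : ℝ),
    1 ≤ N → 2 ≤ L → 1 ≤ τ → M ⊆ Finset.Icc 1 N → T.card ≤ τ → 2 ≤ X →
    64 * (L : ℝ) ^ 2 * X * (32 * (L : ℝ) ^ 2 * τ) ^ τ ≤ Q →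
    (∀ K ∈ M, ∃ x ∈ idx T, |lin T x - √K| < 1 / Q) → 
    ∃ R, X ≤ R ∧ R ≤ 4 * X * (32 * (L : ℝ) ^ 2 * τ) ^ τ * (L : ℝ) ^ 2 ∧
      Pe R ≤ √R * (C + C * (N : ℝ) ^ (1 / 4 : ℝ) / √L
        - c * ∑ K ∈ M, (gr K : ℝ) * (K : ℝ) ^ (-(3 / 4) : ℝ)) := by
  obtain ⟨C1, hC1, hlow⟩ := gI_lower
  refine ⟨1 / 120, 2 * C1 + 3000, by norm_num, by linarith, ?_⟩
  intro N L τ M T X W hN hL hτ hM hTτ hX hW hMT
  have hN0 : (0 : ℝ) < N := by exact_mod_cast hN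
  have hN1 : (1 : ℝ) ≤ N := by exact_mod_cast hN
  have hsN : 1 ≤ √(N : ℝ) := by rw [Real.one_le_sqrt]; exact hN1
  have hLr : (2 : ℝ) ≤ L := by exact_mod_cast hL
  have hτr : (1 : ℝ) ≤ τ := by exact_mod_cast hτ
  have hsL : 0 < √(L : ℝ) := Real.sqrt_pos.mpr (by linarith)
  have hπ := Real.pi_pos
  set S : ℝ := ∑ K ∈ M, (gr K : ℝ) * (K : ℝ) ^ (-(3 / 4) : ℝ) with hS
  set Q : ℝ := (N : ℝ) ^ (1 / 4 : ℝ) with hQ
  have hQ0 : 0 ≤ Q := Real.rpow_nonneg hN0.le _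
  have hS0 : 0 ≤ S := Finset.sum_nonneg fun K _ =>
    mul_nonneg (Nat.cast_nonneg _) (Real.rpow_nonneg (Nat.cast_nonneg K) _)
  by_contra hcon
  push Not at hcon
  have hL2 : (1 : ℝ) ≤ (L : ℝ) ^ 2 := by nlinarith
  set D : ℝ := 32 * (L : ℝ) ^ 2 * τ with hD
  have hD1 : 1 ≤ D := by
    rw [hD]
    nlinarith
  have hP1 : 1 ≤ D ^ τ := one_le_pow₀ hD1
  set Y : ℝ := 4 * X * D ^ τ * (L : ℝ) ^ 2 with hY
  set β : ℝ := (2 * C1 + 3000) + (2 * C1 + 3000) * Q / √L - 1 / 120 * S with hβ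
  obtain ⟨x, hx1, hx2', hx3'⟩ := dirichlet T (fun K => √(K : ℝ)) (32 * L ^ 2 * τ)
    (Nat.one_le_iff_ne_zero.2 (by positivity)) (2 * X) (by linarith)
  push_cast at hx2' hx3'
  rw [← hD] at hx2' hx3'
  have hx2 : x ≤ 2 * X * D ^ τ :=
    hx2'.trans (mul_le_mul_of_nonneg_left (pow_le_pow_right₀ hD1 hTτ) (by linarith))
  have hW0 : 0 < W := lt_of_lt_of_le (by positivity) hW
  have hx3 : ∀ K ∈ M, ∃ a : ℤ, |√(K : ℝ) * x - a| ≤ 1 / (16 * (L : ℝ) ^ 2) := by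
    intro K hK
    obtain ⟨a, ha⟩ := minus_near (by linarith : 0 ≤ x) hx3' (hMT K hK)
    refine ⟨a, ha.trans ?_⟩
    have e1 : x / W ≤ 1 / (32 * (L : ℝ) ^ 2) := by
      rw [div_le_div_iff₀ hW0 (by positivity)]
      have : x * (32 * (L : ℝ) ^ 2) ≤ 2 * X * D ^ τ * (32 * (L : ℝ) ^ 2) :=
        mul_le_mul_of_nonneg_right hx2 (by positivity)
      linarith
    have e2 : (T.card : ℝ) * (1 / D) ≤ 1 / (32 * (L : ℝ) ^ 2) := by
      have h1 : (T.card : ℝ) ≤ τ := by exact_mod_cast hTτ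
      calc (T.card : ℝ) * (1 / D) ≤ τ * (1 / D) := mul_le_mul_of_nonneg_right h1 (by positivity)
        _ = 1 / (32 * (L : ℝ) ^ 2) := by
            rw [hD]
            field_simp
    have e3 : 1 / (16 * (L : ℝ) ^ 2) = 1 / (32 * (L : ℝ) ^ 2) + 1 / (32 * (L : ℝ) ^ 2) := by
      field_simp
      norm_num
    rw [e3]
    exact add_le_add e1 e2
  have hYpos : 0 < Y := by positivity
  -- choose `δ`
  obtain ⟨δ, hδ⟩ : ∃ δ : ℝ, δ = 1 / (Y + 13 * √N) := ⟨_, rfl⟩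
  have hδ0 : 0 < δ := by rw [hδ]; positivity
  have hδ2 : δ ≤ 1 / 2 := by
    rw [hδ]
    apply one_div_le_one_div_of_le (by norm_num)
    nlinarith
  have hδY : δ * Y ≤ 1 := by
    rw [hδ, one_div_mul_eq_div, div_le_one (by positivity)]
    nlinarith
  have hδN : 4 * π * δ * √N ≤ 1 := by
    have h1 : 4 * π * δ * √N = 4 * π * √N / (Y + 13 * √N) := by rw [hδ]; ring
    rw [h1, div_le_one (by positivity)]
    have := Real.pi_lt_d2
    nlinarith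
  have h1 := hlow δ β X Y hδ0 hδ2 hX hδY (fun R hR1 hR2 => by
    have := hcon R hR1 hR2
    rw [mul_comm]
    exact this.le)
  have h2 : ∀ l ∈ Finset.Icc 1 (L ^ 2), min β (β / 2) - C1 ≤ Av (1 / (4 * √N)) (gI δ) (l * x) := by
    intro l hl
    rw [Finset.mem_Icc] at hl
    have hl1 : (1 : ℝ) ≤ l := by exact_mod_cast hl.1
    have hl2 : (l : ℝ) ≤ (L : ℝ) ^ 2 := by exact_mod_cast hl.2
    have hh : 1 / (4 * √(N : ℝ)) ≤ 1 / 4 := by
      apply one_div_le_one_div_of_le (by norm_num)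
      linarith
    refine le_Av (by positivity) (continuous_gI hδ0) fun y hy1 hy2 => h1 y ?_ ?_
    · have : 2 * X ≤ l * x := by nlinarith
      linarith
    · have h3 : l * x ≤ (L : ℝ) ^ 2 * (2 * X * D ^ τ) :=
        mul_le_mul hl2 hx2 (by linarith) (by positivity)
      have h4 : 1 ≤ (L : ℝ) ^ 2 * (2 * X * D ^ τ) := by
        have : 1 ≤ 2 * X * D ^ τ := by nlinarith
        nlinarith
      have h5 : Y = 2 * ((L : ℝ) ^ 2 * (2 * X * D ^ τ)) := by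
        rw [hY]; ring
      rw [h5]
      linarith
  have h3 := core hδ0 hN hL hδN hM hx3 h2
  rw [← hS, ← hQ] at h3
  have hQL : 0 ≤ Q / √L := by positivity
  have e1 : 1000 * Q / √L = 1000 * (Q / √L) := by ring
  have e2 : (2 * C1 + 3000) * Q / √L = (2 * C1 + 3000) * (Q / √L) := by ring
  have h5 : 0 ≤ C1 * (Q / √L) := by positivity
  rw [e1] at h3
  rw [e2] at hβ
  rcases min_choice β (β / 2) with h4 | h4
  · rw [h4] at h3
    linarith
  · rw [h4] at h3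
    linarith

end

end Pool.Agent.Helper60.GP
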